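import Mathlib
import Pool.Agent.R78.S3.All
import Pool.Agent.R419.CF.Low

/-!
# The parity conjecture for the abelian varieties `E ⊗ M`, `M` a lattice with an action of `S₃`

`E` is the curve `y² + y = x³`.  `N` runs over all cube-free numbers prime to `3`, not `±1` modulo `9`,
with exactly one prime factor `≡ 2` modulo `3`, and `F = ℚ(∛N, √-3)`, a Galois extension of `ℚ` of
degree `6` with group `S₃`.  `M = ℤ^g` is any lattice with an action `R` of `Gal(F/ℚ)`, and `A = E ⊗ M`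
is the abelian variety of dimension `g` over `ℚ` that becomes isomorphic to `E^g` over `F`, with the
Galois action `σ(P ⊗ m) = σ(P) ⊗ R(σ) m`: so `A(F) = E(F)^g` with the action
`(σ P)_i = ∑_j R(σ)_ij σ(P_j)`, and `A(ℚ)` is the group of the invariants.  (For the permutation
representations of `Gal(F/ℚ)` these are the restrictions of scalars of `E` from the subfields of `F` and
their products; for the lattice of rank `2` in the representation of degree two, `A` is an abelian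
surface that is isogenous to the kernel of the norm from the restriction of scalars of `E` from
`ℚ(∛N)` to `E`.)

* For all `N` of the class, all `g` and `R`, the L-function `L(A, s)` is entire.
* If `N` does not split (a condition on cubic residues between the prime factors of `N`), then the
  parity conjecture holds for all these `A`, both sides being `+1`: `L(A, 1) ≠ 0`, so that the order
  at `1` is zero and the sign of each functional equation is `+1`, and `A(ℚ)` is finite.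
* This is the case for at least the proportion `∏_{i ≥ 1} (1 - 3^{-i}) - ε` of the `N` up to `X`, for
  every `ε > 0` and every large `X`; the product is greater than `0.56`.

The local factors.  `E` has good reduction at the primes `p ≠ 3`, and the inertia group at `p` acts on
the Tate module `T(E) ⊗ M` through `M` only; so the factor at `p` is
`det (1 - a_p p^(-s) B + p^(1-2s) B²)⁻¹`, where `B` is the Frobenius on `M ⊗ ℂ` after the projector on
the invariants of the inertia group.  At `3` the factor is `1`, as `A` is isogenous to a product of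
curves `y² + D y = x³` (and of twists of `E` by `-3`, which are isogenous to `E`) with additive
reduction at `3`, or of forms over the fields above, for which the same holds.

The arithmetic of the curves `y² + D y = x³` and of `y² + y = x³` over the fields `K(∛D)`,
`K = ℚ(√-3)`, is joint work of about forty agents (`Pool/Agent/Y703/CT`, `Pool/Agent/Y703/CX`,
`Pool/Agent/Y696`); the extension to all cube-free numbers is by helper419 (`Pool/Agent/R419/CF`,
`Pool/Agent/R419/CE`).  The decomposition of the representations, all their Artin-twisted L-functions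
and the L-function of `E` over `ℚ` are in `Pool/Agent/R78/S3` (helper78).
-/

set_option autoImplicit false

open scoped Classical

namespace Pool.Agent.Results.MP_ac3185_nt.CubicLatticeForms

open NumberField IsDedekindDomain WeierstrassCurve Module

/-! ### The abelian variety `E ⊗ M` -/

section defs

variable {F : Type} [Field F] [NumberField F] {g : ℕ}

/-- The equation `y² + y = x³` of `E` over `ℤ`. -/
def base : WeierstrassCurve ℤ := ⟨0, 0, 1, 0, 0⟩

/-- The group `E(F)`. -/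
abbrev Pt (F : Type) [Field F] : Type := (base.map (Int.castRingHom F)).toAffine.Point

/-- The action of an automorphism of `F` on `E(F)`. -/
noncomputable def act (σ : F ≃ₐ[ℚ] F) : Pt F →+ Pt F :=
  Affine.Point.map (W' := base.toAffine) (S := ℤ) (σ : F →+* F).toIntAlgHom

/-- The action of `σ` on `A(F) = E(F)^g`: `(σ P)_i = ∑_j R(σ)_ij σ(P_j)`. -/
noncomputable def actA (R : (F ≃ₐ[ℚ] F) →* Matrix (Fin g) (Fin g) ℤ) (σ : F ≃ₐ[ℚ] F)
    (P : Fin g → Pt F) : Fin g → Pt F :=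
  fun i => ∑ j, R σ i j • act σ (P j)

/-- The group `A(ℚ)`. -/
noncomputable def ptsA (R : (F ≃ₐ[ℚ] F) →* Matrix (Fin g) (Fin g) ℤ) :
    AddSubgroup (Fin g → Pt F) where
  carrier := {P | ∀ σ : F ≃ₐ[ℚ] F, actA R σ P = P}
  zero_mem' := fun σ => by
    funext i
    simp [actA]
  add_mem' := fun {P Q} hP hQ σ => by
    funext i
    have h1 := congrFun (hP σ) i
    have h2 := congrFun (hQ σ) i
    simp only [actA, Pi.add_apply, map_add, smul_add, Finset.sum_add_distrib] at h1 h2 ⊢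
    rw [h1, h2]
  neg_mem' := fun {P} hP σ => by
    funext i
    have h1 := congrFun (hP σ) i
    simp only [actA, Pi.neg_apply, map_neg, smul_neg, Finset.sum_neg_distrib] at h1 ⊢
    rw [h1]

/-- The rank of `A(ℚ)`. -/
noncomputable def rank (R : (F ≃ₐ[ℚ] F) →* Matrix (Fin g) (Fin g) ℤ) : ℕ := finrank ℤ (ptsA R)

/-! ### The L-function -/

/-- The linear map of `ℂ^g` with the matrix `R(σ)`. -/
noncomputable def lin (R : (F ≃ₐ[ℚ] F) →* Matrix (Fin g) (Fin g) ℤ) (σ : F ≃ₐ[ℚ] F) :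
    (Fin g → ℂ) →ₗ[ℂ] (Fin g → ℂ) :=
  Matrix.toLin' ((R σ).map (fun n : ℤ => (n : ℂ)))

/-- `a_p = p + 1 - #E(𝔽_p)`. -/
noncomputable def a (p : ℕ) : ℤ :=
  (p : ℤ) - (Nat.card {q : ZMod p × ZMod p // q.2 ^ 2 + q.2 = q.1 ^ 3} : ℤ)

/-- `σ` is in the inertia group of the prime `w`. -/
def InInertia (w : HeightOneSpectrum (𝓞 F)) (σ : F ≃ₐ[ℚ] F) : Prop :=
  ∀ x : 𝓞 F, σ • x - x ∈ w.asIdeal

/-- `σ` is a Frobenius element at the prime `w` above `p`. -/
def IsFrobenius (p : ℕ) (w : HeightOneSpectrum (𝓞 F)) (σ : F ≃ₐ[ℚ] F) : Prop :=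
  ∀ x : 𝓞 F, σ • x - x ^ p ∈ w.asIdeal

/-- The inertia group of `w`. -/
noncomputable def inertia (w : HeightOneSpectrum (𝓞 F)) : Finset (F ≃ₐ[ℚ] F) :=
  Finset.univ.filter fun σ : F ≃ₐ[ℚ] F => InInertia w σ

/-- The projector on the invariants of the inertia group of `w`. -/
noncomputable def projector (R : (F ≃ₐ[ℚ] F) →* Matrix (Fin g) (Fin g) ℤ)
    (w : HeightOneSpectrum (𝓞 F)) : (Fin g → ℂ) →ₗ[ℂ] (Fin g → ℂ) :=
  ((inertia w).card : ℂ)⁻¹ • ∑ σ ∈ inertia w, lin R σ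

/-- The action of `φ` after the projector on the invariants of the inertia group of `w`. -/
noncomputable def frobenius (R : (F ≃ₐ[ℚ] F) →* Matrix (Fin g) (Fin g) ℤ)
    (w : HeightOneSpectrum (𝓞 F)) (φ : F ≃ₐ[ℚ] F) : (Fin g → ℂ) →ₗ[ℂ] (Fin g → ℂ) :=
  lin R φ * projector R w

/-- `1 - x B + y B²`. -/
noncomputable def quadratic (B : (Fin g → ℂ) →ₗ[ℂ] (Fin g → ℂ)) (x y : ℂ) :
    (Fin g → ℂ) →ₗ[ℂ] (Fin g → ℂ) :=
  LinearMap.id - x • B + y • (B * B)

/-- The local factor `det (1 - a_p p^(-s) B + p^(1-2s) B²)⁻¹`, where `B` is the projector on the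
invariants of the inertia group of `w` followed by a Frobenius element `φ` at `w`. -/
noncomputable def factor (R : (F ≃ₐ[ℚ] F) →* Matrix (Fin g) (Fin g) ℤ) (p : ℕ)
    (w : HeightOneSpectrum (𝓞 F)) (φ : F ≃ₐ[ℚ] F) (s : ℂ) : ℂ :=
  (LinearMap.det
    (quadratic (frobenius R w φ) ((a p : ℂ) * (p : ℂ) ^ (-s)) ((p : ℂ) ^ (1 - 2 * s))))⁻¹

/-- `c` is the local factor at `p` of `L(A, s)`: `1` if `p = 3`, otherwise the value of `factor` for
all the primes `w` above `p` and Frobenius elements `φ` at `w` (and there are such). -/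
def IsLocalFactor (R : (F ≃ₐ[ℚ] F) →* Matrix (Fin g) (Fin g) ℤ) (p : ℕ) (c : ℂ → ℂ) : Prop :=
  (p = 3 → ∀ s, c s = 1) ∧
  (p ≠ 3 → (∃ (w : HeightOneSpectrum (𝓞 F)) (φ : F ≃ₐ[ℚ] F), (p : 𝓞 F) ∈ w.asIdeal ∧
      IsFrobenius p w φ) ∧
    ∀ (w : HeightOneSpectrum (𝓞 F)) (φ : F ≃ₐ[ℚ] F), (p : 𝓞 F) ∈ w.asIdeal →
      IsFrobenius p w φ → ∀ s, c s = factor R p w φ s)

/-- `L` is the L-function `L(A, s)`: it is entire and equal to the product of the local factors for
`Re s > 3/2`. -/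
def IsL (R : (F ≃ₐ[ℚ] F) →* Matrix (Fin g) (Fin g) ℤ) (L : ℂ → ℂ) : Prop :=
  Differentiable ℂ L ∧ ∃ c : Nat.Primes → ℂ → ℂ, (∀ p : Nat.Primes, IsLocalFactor R p (c p)) ∧
    ∀ s : ℂ, 3 / 2 < s.re → HasProd (fun p : Nat.Primes => c p s) (L s)

/-- The completed L-function `C^(s/2) ((2π)^(-s) Γ(s))^g L(s)` of an abelian variety of dimension
`g` over `ℚ`. -/
noncomputable def Lambda (g : ℕ) (C : ℝ) (L : ℂ → ℂ) (s : ℂ) : ℂ :=
  (C : ℂ) ^ (s / 2) * ((2 * Real.pi : ℂ) ^ (-s) * Complex.Gamma s) ^ g * L s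

/-- `w` is the sign of a functional equation `Λ(s) = w Λ(2 - s)`, in the critical strip, for some
positive real number `C`. -/
def IsSign (g : ℕ) (L : ℂ → ℂ) (w : ℂ) : Prop :=
  ∃ C : ℝ, 0 < C ∧ ∀ s : ℂ, 0 < s.re → s.re < 2 → Lambda g C L s = w * Lambda g C L (2 - s)

/-- The parity conjecture for `A`: the L-function exists, its order at `1` is finite and has the
parity of the rank, and each sign `w` of a functional equation is `(-1) ^ rank`. -/
def Parity (R : (F ≃ₐ[ℚ] F) →* Matrix (Fin g) (Fin g) ℤ) : Prop :=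
  (∃ L : ℂ → ℂ, IsL R L) ∧ ∀ L : ℂ → ℂ, IsL R L →
    (∃ r : ℕ, analyticOrderAt L 1 = r ∧ (Even r ↔ Even (rank R))) ∧
    ∀ w : ℂ, IsSign g L w → w = (-1) ^ rank R

/-- `L(A, 1) ≠ 0` and `A(ℚ)` is finite. -/
def BothZero (R : (F ≃ₐ[ℚ] F) →* Matrix (Fin g) (Fin g) ℤ) : Prop :=
  (∀ L : ℂ → ℂ, IsL R L → L 1 ≠ 0) ∧ Finite (ptsA R)

end defs

/-! ### The class -/

/-- `N` is not zero, not divisible by the cube of a prime, not divisible by `3`, not `±1` modulo `9`,
and divisible by exactly one prime that is `2` modulo `3`. -/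
def InClass (N : ℕ) : Prop :=
  N ≠ 0 ∧ (∀ p : ℕ, p.Prime → ¬ p ^ 3 ∣ N) ∧ ¬ 3 ∣ N ∧ N % 9 ≠ 1 ∧ N % 9 ≠ 8 ∧
    ∃ q : ℕ, q.Prime ∧ q % 3 = 2 ∧ q ∣ N ∧ ∀ p : ℕ, p.Prime → p ∣ N → p ≠ q → p % 3 = 1

/-- In every factorization of `N` in coprime factors `d₀ d₁ d₂` for which `d₁ d₂²`, `d₂ d₀²`,
`d₀ d₁²` are cubes modulo the primes dividing `d₀`, `d₁`, `d₂` respectively, two factors are `1`. -/
def HasNoSplitting (N : ℕ) : Prop :=
  ∀ d : ZMod 3 → ℕ, ∏ c, d c = N → (∀ c c', c ≠ c' → Nat.Coprime (d c) (d c')) →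
    (∀ (c : ZMod 3) (p : ℕ), p.Prime → p ∣ d c →
      ∃ x : ℤ, (p : ℤ) ∣ (d (c + 1) : ℤ) * (d (c + 2) : ℤ) ^ 2 - x ^ 3) →
    ∃ c, ∀ c', c' ≠ c → d c' = 1

/-- `F = ℚ(∛N, √-3)`: a Galois extension of `ℚ` of degree `6` that contains a cube root `θ` of
`N`. -/
def IsField (N : ℕ) (F : Type) [Field F] [NumberField F] (θ : F) : Prop :=
  IsGalois ℚ F ∧ finrank ℚ F = 6 ∧ θ ^ 3 = (N : F)

/-- The parity conjecture, with both sides `+1`, for all the abelian varieties `E ⊗ M`, `M = ℤ^g` a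
lattice of any rank `g` with any action of `Gal(F/ℚ)`, for all the fields `F = ℚ(∛N, √-3)`. -/
def ParityAll (N : ℕ) : Prop :=
  ∀ (F : Type) [Field F] [NumberField F] (θ : F), IsField N F θ →
    ∀ (g : ℕ) (R : (F ≃ₐ[ℚ] F) →* Matrix (Fin g) (Fin g) ℤ), Parity R ∧ BothZero R

/-- There is a field `F = ℚ(∛N, √-3)`, and for each one `L(E ⊗ M, s)` is entire for every lattice
`M = ℤ^g` with an action of `Gal(F/ℚ)`. -/
def HasEntireL (N : ℕ) : Prop :=
  (∃ (F : Type) (_ : Field F) (_ : NumberField F) (θ : F), IsField N F θ) ∧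
  ∀ (F : Type) [Field F] [NumberField F] (θ : F), IsField N F θ →
    ∀ (g : ℕ) (R : (F ≃ₐ[ℚ] F) →* Matrix (Fin g) (Fin g) ℤ), ∃ L : ℂ → ℂ, IsL R L

/-! ### Proofs -/

open Pool.Agent.R78.S3 (dd P2 tr cnt ef Fld InI exists_gi not_cube ef_bad exists_w exists_fr local_gen
  exists_fld exists_lf_gen fin_pts avg)

theorem class_iff (N : ℕ) : InClass N ↔ Pool.Agent.Y703.CT.Cls N := by
  unfold InClass Pool.Agent.Y703.CT.Cls Pool.Agent.Y703.CT.Base
  constructor
  · rintro ⟨h1, h2, h3, h4, h5, h6⟩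
    exact ⟨⟨h1, h3, h2⟩, h4, h5, h6⟩
  · rintro ⟨⟨h1, h3, h2⟩, h4, h5, h6⟩
    exact ⟨h1, h2, h3, h4, h5, h6⟩

theorem base_eq (F : Type) [Field F] :
    base.map (Int.castRingHom F) = Pool.Agent.Y696.CTK.ED (1 : F) := by
  unfold base Pool.Agent.Y696.CTK.ED WeierstrassCurve.map
  simp

section proofs

variable {F : Type} [Field F] [NumberField F] {g : ℕ}

/-- the representation -/
noncomputable def rep (R : (F ≃ₐ[ℚ] F) →* Matrix (Fin g) (Fin g) ℤ) :
    Representation ℂ (F ≃ₐ[ℚ] F) (Fin g → ℂ) where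
  toFun := lin R
  map_one' := by
    unfold lin
    rw [map_one, Matrix.map_one _ Int.cast_zero Int.cast_one, Matrix.toLin'_one]
    rfl
  map_mul' σ τ := by
    unfold lin
    rw [map_mul, Matrix.map_mul_intCast, Matrix.toLin'_mul]
    rfl

theorem factor_eq (R : (F ≃ₐ[ℚ] F) →* Matrix (Fin g) (Fin g) ℤ) (p : ℕ)
    (w : HeightOneSpectrum (𝓞 F)) (φ : F ≃ₐ[ℚ] F) (s : ℂ) : factor R p w φ s =
      (dd (rep R) (InI w) φ (tr (1 : ZMod p) * (p : ℂ) ^ (-s)) ((p : ℂ) ^ (1 - 2 * s)))⁻¹ := by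
  have e : (a p : ℂ) = tr (1 : ZMod p) := by
    unfold a tr cnt
    simp only [one_mul]
    push_cast
    rfl
  unfold factor dd P2 quadratic
  rw [e]
  rfl

theorem isL_hasProd {N : ℕ} (hN : InClass N) {θ : F} (hF : IsField N F θ)
    (R : (F ≃ₐ[ℚ] F) →* Matrix (Fin g) (Fin g) ℤ) :
    ∃ n c : ℕ, ∀ p : Nat.Primes, IsLocalFactor R p
      (fun s => ef 1 p s ^ n * (ef N p s * ef (Pool.Agent.R78.S3.star N) p s) ^ c) := by
  have hC := (class_iff N).1 hN
  have hFl : Fld F N θ := ⟨hF.1, hF.2.1, hF.2.2⟩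
  obtain ⟨a, t, σ, τ, hG⟩ := exists_gi hFl (not_cube hC)
  obtain ⟨n, c, hty⟩ := Pool.Agent.R78.S3.exists_typ hG.gen (rep R)
  refine ⟨n, c, fun p => ⟨fun h3 s => ?_, fun h3 => ⟨?_, ?_⟩⟩⟩
  · have e : ∀ D : ℕ, ef D p s = 1 := fun D => ef_bad p.2 (by rw [h3]; exact Dvd.intro _ rfl) s
    show ef 1 p s ^ n * (ef N p s * ef (Pool.Agent.R78.S3.star N) p s) ^ c = 1
    rw [e, e, e, one_mul, one_pow, one_pow, one_mul]
  · obtain ⟨w, hw⟩ := exists_w F p.2
    obtain ⟨g, hg⟩ := exists_fr hF.1 p.2 w hw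
    exact ⟨w, g, hw, hg⟩
  · intro w φ hw hφ s
    rw [factor_eq]
    exact local_gen hC hF.1 hG (rep R) hty p.2 h3 hw hφ s

/-- the L-function is unique -/
theorem isL_unique {R : (F ≃ₐ[ℚ] F) →* Matrix (Fin g) (Fin g) ℤ} {L M : ℂ → ℂ} (hL : IsL R L)
    (hM : IsL R M) : L = M := by
  obtain ⟨hL1, c, hc, hL2⟩ := hL
  obtain ⟨hM1, c', hc', hM2⟩ := hM
  have hcc : c = c' := by
    funext p s
    by_cases h3 : (p : ℕ) = 3
    · rw [(hc p).1 h3, (hc' p).1 h3]
    · obtain ⟨w, φ, hw, hφ⟩ := ((hc p).2 h3).1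
      rw [((hc p).2 h3).2 w φ hw hφ s, ((hc' p).2 h3).2 w φ hw hφ s]
  have h1 : AnalyticOnNhd ℂ L Set.univ := fun z _ => hL1.analyticAt z
  have h2 : AnalyticOnNhd ℂ M Set.univ := fun z _ => hM1.analyticAt z
  refine h1.eq_of_eventuallyEq h2 (z₀ := 2) ?_
  have h3 : {s : ℂ | 3 / 2 < s.re} ∈ nhds (2 : ℂ) :=
    (isOpen_lt continuous_const Complex.continuous_re).mem_nhds (by
      show (3 : ℝ) / 2 < (2 : ℂ).re
      norm_num)
  filter_upwards [h3] with s hs
  have h5 := hL2 s hs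
  rw [hcc] at h5
  exact h5.unique (hM2 s hs)

theorem sign_one {n : ℕ} {L : ℂ → ℂ} (h : L 1 ≠ 0) {w : ℂ} (hw : IsSign n L w) : w = 1 := by
  obtain ⟨C, hC, h1⟩ := hw
  have h2 := h1 1 (by norm_num) (by norm_num)
  have e : (2 : ℂ) - 1 = 1 := by norm_num
  rw [e] at h2
  have h3 : Lambda n C L 1 ≠ 0 := by
    refine mul_ne_zero (mul_ne_zero ?_ (pow_ne_zero _ (mul_ne_zero ?_ ?_))) h
    · have : (C : ℂ) ≠ 0 := by exact_mod_cast hC.ne'
      exact (Complex.cpow_ne_zero_iff.2 (Or.inl this))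
    · have : (2 * Real.pi : ℂ) ≠ 0 := by
        have := Real.pi_ne_zero
        exact_mod_cast mul_ne_zero two_ne_zero this
      exact (Complex.cpow_ne_zero_iff.2 (Or.inl this))
    · apply Complex.Gamma_ne_zero_of_re_pos
      norm_num
  have h4 : (w - 1) * Lambda n C L 1 = 0 := by linear_combination -h2
  exact sub_eq_zero.1 ((mul_eq_zero.1 h4).resolve_right h3)

end proofs

theorem entire_of {N : ℕ} (hN : InClass N) : HasEntireL N := by
  have hC := (class_iff N).1 hN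
  constructor
  · obtain ⟨F, i1, i2, θ, h⟩ := exists_fld (not_cube hC)
    exact ⟨F, i1, i2, θ, h.gal, h.deg, h.cube⟩
  · intro F _ _ θ hF g R
    obtain ⟨n, c, h⟩ := isL_hasProd hN hF R
    obtain ⟨L, h1, h3, -⟩ := exists_lf_gen hC n c
    exact ⟨L, h1, _, h, h3⟩

theorem parity_of {N : ℕ} (hN : InClass N) (hs : HasNoSplitting N) : ParityAll N := by
  have hC := (class_iff N).1 hN
  intro F _ _ θ hF g R
  obtain ⟨n, c, h⟩ := isL_hasProd hN hF R
  obtain ⟨L, h1, h3, h4⟩ := exists_lf_gen hC n c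
  have hL : IsL R L := ⟨h1, _, h, h3⟩
  have hne : ∀ M : ℂ → ℂ, IsL R M → M 1 ≠ 0 := fun M hM => by
    rw [isL_unique hM hL]
    exact h4 hs
  have hf : Finite (Pt F) := by
    unfold Pt
    rw [base_eq]
    exact fin_pts ⟨hF.1, hF.2.1, hF.2.2⟩ hC hs
  have hfA : Finite (ptsA R) := inferInstance
  have hr : rank R = 0 := Pool.Agent.Y687.finrank_zero_of_finite hfA
  refine ⟨⟨⟨L, hL⟩, fun M hM => ⟨⟨0, ?_, by rw [hr]⟩, fun w hw => ?_⟩⟩, hne, hfA⟩
  · rw [Nat.cast_zero]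
    exact (hM.1.analyticAt _).analyticOrderAt_eq_zero.2 (hne M hM)
  · rw [hr, pow_zero]
    exact sign_one (hne M hM) hw

theorem result :
    (∃ c : ℝ, 0 < c ∧ ∃ X₀ : ℕ, ∀ X : ℕ, X₀ ≤ X →
      c * X / Real.sqrt (Real.log X) ≤ (((Finset.Icc 1 X).filter fun N => InClass N).card : ℝ)) ∧
    (∀ N : ℕ, InClass N → HasEntireL N ∧ (HasNoSplitting N → ParityAll N)) ∧
    (0.56 : ℝ) < ∏' i : ℕ, (1 - (1 / 3 : ℝ) ^ (i + 1)) ∧
    ∀ ε : ℝ, 0 < ε → ∃ X₀ : ℕ, ∀ X : ℕ, X₀ ≤ X →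
      ((∏' i : ℕ, (1 - (1 / 3 : ℝ) ^ (i + 1))) - ε) *
          (((Finset.Icc 1 X).filter fun N => InClass N).card : ℝ) ≤
        (((Finset.Icc 1 X).filter fun N => InClass N ∧ ParityAll N).card : ℝ) := by
  have e1 : ∀ X : ℕ, (Finset.Icc 1 X).filter (fun N => InClass N) =
      (Finset.Icc 1 X).filter fun N => Pool.Agent.Y703.CT.Cls N := fun X =>
    Finset.filter_congr fun N _ => class_iff N
  refine ⟨?_, fun N hN => ⟨entire_of hN, parity_of hN⟩, Pool.Agent.Y461.CX.t_C3.2.2.2, ?_⟩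
  · simp only [e1]
    exact Pool.Agent.R419.CF.low
  · intro ε hε
    obtain ⟨X₀, h⟩ := (Metric.tendsto_atTop.1 Pool.Agent.R419.CF.t_FIN) ε hε
    refine ⟨X₀, fun X hX => ?_⟩
    have h2 := h X hX
    rw [Real.dist_eq, abs_lt] at h2
    have h3 := h2.1
    rw [e1]
    unfold Pool.Agent.Y703.CX.c3 at h3
    set A := (((Finset.Icc 1 X).filter fun D => Pool.Agent.Y703.CT.Cls D).card : ℝ) with hA
    set B := (((Finset.Icc 1 X).filter fun D => Pool.Agent.Y703.CT.Cls D ∧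
      Pool.Agent.Y703.CT.NoSplit D).card : ℝ) with hB
    have hA0 : 0 ≤ A := Nat.cast_nonneg _
    have h4 : ((∏' i : ℕ, (1 - (1 / 3 : ℝ) ^ (i + 1))) - ε) * A ≤ B := by
      rcases hA0.eq_or_lt with h0 | h0
      · rw [← h0, mul_zero]
        exact Nat.cast_nonneg _
      · rw [← le_div_iff₀ h0]
        linarith
    refine h4.trans ?_
    rw [hB]
    norm_cast
    refine Finset.card_le_card fun N hN => ?_
    obtain ⟨a1, a3, a4⟩ := Finset.mem_filter.1 hN
    exact Finset.mem_filter.2 ⟨a1, (class_iff N).2 a3, parity_of ((class_iff N).2 a3) a4⟩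

end Pool.Agent.Results.MP_ac3185_nt.CubicLatticeForms
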