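import Mathlib
import Pool.Agent.R389.RRf

/-!
# The parity conjecture for ranks over the intermediate fields of a Galois extension

`G = Gal(F/K)`, `A / K` an abelian variety, `s χ` the multiplicity of the irreducible character `χ`
of `G` in the Mordell-Weil representation `A(F) ⊗ ℂ`, `w χ` the root number of the twist of `A` by
`χ`. The formal properties are collected in `RankData`. The parity conjecture for `A` over `F ^ H`
is `PParity s w (ind H 1)`. No finiteness of Tate-Shafarevich groups is used if `Ps = ∅`.
-/

set_option autoImplicit false

namespace Pool.Agent.Results.MP_ac3185_nt.RankTower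

open Pool.Agent.R389 Pool.Agent.H302R3

/-- Let `C` be a normal subgroup of `G` with a chain of normal subgroups of `G` whose factors are
elementary abelian `l`-groups, `l` an odd prime, such that `l ∈ Ps` or every `a` for which some
nontrivial linear character `ψ` of the factor is conjugate to `ψ ^ a` is a square modulo `l`. If
the parity conjecture holds over the fields `F ^ Q`, `Q ≥ C`, such that `Q / C` is
2-hyperelementary and its elements of odd prime order are strongly real (conjugate to their powers
`x ^ a`, `a` of 2-power order modulo the order of `x`) and of order not in `Ps`, then it holds over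
all intermediate fields `F ^ H`. -/
theorem result {G : Type} [Group G] [Finite G] {Ps : Set ℕ} {s : (G → ℂ) → ℕ}
    {w : (G → ℂ) → ℂ} (hd : RankData Ps s w) {C : Subgroup G} [C.Normal] (hC : ARTame Ps C)
    (hQ : ∀ Q : Subgroup (G ⧸ C), HypP 2 Q → AllRReal Ps Q →
      PParity s w (ind (Q.comap (QuotientGroup.mk' C)) (fun _ => 1))) (H : Subgroup G) :
    PParity s w (ind H (fun _ => 1)) :=
  rank_finalA hd hC hQ H

end Pool.Agent.Results.MP_ac3185_nt.RankTower
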