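import Pool.Agent.Results.MP_02f36d_nt.SemistableInduction

/-!
# The parity conjecture for products of semistable elliptic curves

`A = E 0 x ... x E (d - 1)` is a product of semistable elliptic curves over a number field `K` and
`L / K` a finite Galois extension.  If the parity conjecture holds for `A` over the intermediate
fields `F` for which `Gal(L/F)` is 2-hyperelementary and generated by its elements of 2-power order,
then it holds for `A` over all intermediate fields of `L / K`, in particular over `K`.
-/

set_option autoImplicit false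

namespace Pool.Agent.Results.MP_ac3185_nt.SemistableProducts

open NumberField IsDedekindDomain
open Pool.Agent.Results.MP_02f36d_nt.SemistableInduction (Semistable SplitMultiplicative
  TwoHyperelementary TwoGenerated)

/-- The root number of the product `A` of the semistable elliptic curves `E j` over `K`: the sign
`(-1) ^ μ`, where `μ` is the sum over `j` of the number of the primes at which `E j` has split
multiplicative reduction, plus `d` for every infinite place. -/
noncomputable def rootNumber {d : ℕ} {K : Type} [Field K] [NumberField K]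
    (E : Fin d → WeierstrassCurve K) : ℤ :=
  (-1) ^ ((∑ j, Nat.card {v : HeightOneSpectrum (𝓞 K) // SplitMultiplicative (E j) v}) +
    d * Nat.card (InfinitePlace K))

open Classical in
/-- The parity conjecture for the product `A` of the elliptic curves `E j` over `K`: the group
`A(K)`, the product of the groups `E j (K)`, has finite rank `r`, the sum of the ranks of the
`E j (K)`, and `(-1) ^ r` is the root number of `A`. -/
def Parity {d : ℕ} {K : Type} [Field K] [NumberField K] (E : Fin d → WeierstrassCurve K) : Prop :=
  ∃ r : Fin d → ℕ, (∀ j, Module.rank ℤ (E j).toAffine.Point = r j) ∧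
    (-1 : ℤ) ^ (∑ j, r j) = rootNumber E

section Aux

open Pool.Agent.R433.MD (fx Ext emb fx_eq_emb gal_unit IsHyper hyper_count)
open Pool.Agent.R333.BR
open Pool.Agent.Results.MP_02f36d_nt.SemistableInduction (neg_pow_iff split_iff' semi_iff semi_map
  hyper_congr gen_congr hyper_sub res res_gen res_quot hyper_of)

theorem root_eq {d : ℕ} {K : Type} [Field K] [NumberField K] (E : Fin d → WeierstrassCurve K) :
    rootNumber E = (-1) ^ ∑ j, rex (E j) := by
  classical
  unfold rootNumber rex ns
  simp only [split_iff', Nat.card_eq_fintype_card (α := InfinitePlace K), Finset.sum_add_distrib,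
    Finset.sum_const, Finset.card_univ, Fintype.card_fin, smul_eq_mul]

open Classical in
theorem parity_iff {d : ℕ} {K : Type} [Field K] [NumberField K] (E : Fin d → WeierstrassCurve K) :
    Parity E ↔ ∃ r : Fin d → ℕ, (∀ j, Module.rank ℤ (E j).toAffine.Point = r j) ∧
      Even (∑ j, (r j + rex (E j))) := by
  unfold Parity
  refine exists_congr fun r => and_congr_right fun _ => ?_
  rw [root_eq, neg_pow_iff, Finset.sum_add_distrib]

/-- relations -/
theorem parity_rel {d : ℕ} {K L : Type} [Field K] [NumberField K] [Field L] [NumberField L]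
    [Algebra K L] [IsGalois K L] {ι : Type} [Fintype ι] [Nonempty ι] (Z : ι → Ext K)
    (f : ∀ i, (Z i).F →ₐ[K] L) (e : ι → ℤ) (m : ℕ) (hm : Odd m)
    (h : ∀ g : Gal(L/K), ∑ i, e i * fx (f i).fieldRange.fixingSubgroup g = m)
    (E : Fin d → WeierstrassCurve K) (hE : ∀ j, (E j).IsElliptic) (hs : ∀ j, Semistable (E j))
    (hp : ∀ i, Parity (fun j => (E j).map (algebraMap K (Z i).F))) : Parity E := by
  classical
  choose r hr hev using fun i => (parity_iff _).1 (hp i)
  choose r0 h1 h2 using fun j =>
    rank_rel (E j) (fun i => (Z i).F) f e m h (fun i => r i j) (fun i => hr i j)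
  have h3 := fun j => rex_rel Z f e m h (hE j) ((semi_iff (E j)).1 (hs j))
  refine (parity_iff _).2 ⟨r0, h1, ?_⟩
  have h4 : Even ((m : ℤ) * ((∑ j, (r0 j + rex (E j)) : ℕ) : ℤ)) := by
    have h5 : (m : ℤ) * ((∑ j, (r0 j + rex (E j)) : ℕ) : ℤ) =
        ∑ i, e i * ((∑ j, (r i j + rex ((E j).map (algebraMap K (Z i).F))) : ℕ) : ℤ) := by
      push_cast
      rw [Finset.mul_sum]
      simp only [Finset.mul_sum]
      rw [Finset.sum_comm]
      refine Finset.sum_congr rfl fun j _ => ?_
      rw [mul_add, h2 j, ← h3 j, ← Finset.sum_add_distrib]
      refine Finset.sum_congr rfl fun i _ => ?_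
      ring
    rw [h5]
    refine Finset.even_sum _ fun i _ => ?_
    have h6 : Even ((∑ j, (r i j + rex ((E j).map (algebraMap K (Z i).F))) : ℕ) : ℤ) := by
      exact_mod_cast hev i
    exact h6.mul_left _
  have hm' : Odd (m : ℤ) := by exact_mod_cast hm
  rcases Int.even_mul.1 h4 with h8 | h8
  · exact absurd h8 (Int.not_even_iff_odd.2 hm')
  · exact_mod_cast h8

/-- cyclic extensions of odd degree -/
theorem parity_odd {d : ℕ} {F F' : Type} [Field F] [NumberField F] [Field F'] [NumberField F']
    [Algebra F F'] [IsGalois F F'] (hc : IsCyclic Gal(F'/F)) (ho : Odd (Nat.card Gal(F'/F)))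
    (E : Fin d → WeierstrassCurve F) (hE : ∀ j, (E j).IsElliptic) (hs : ∀ j, Semistable (E j))
    (hp : Parity (fun j => (E j).map (algebraMap F F'))) : Parity E := by
  classical
  obtain ⟨r', hr', hev'⟩ := (parity_iff _).1 hp
  choose r hr hev using fun j => rank_odd hc ho (E j) (r' j) (hr' j)
  refine (parity_iff _).2 ⟨r, hr, ?_⟩
  have h1 := fun j => rex_odd (L := F') ho (hE j) ((semi_iff (E j)).1 (hs j))
  have h2 : Even (∑ j, ((r' j + r j) + (rex ((E j).map (algebraMap F F')) + rex (E j)))) :=
    Finset.even_sum _ fun j _ => (hev j).add (h1 j)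
  have h3 : ∑ j, ((r' j + r j) + (rex ((E j).map (algebraMap F F')) + rex (E j))) =
      ∑ j, (r' j + rex ((E j).map (algebraMap F F'))) + ∑ j, (r j + rex (E j)) := by
    rw [← Finset.sum_add_distrib]
    exact Finset.sum_congr rfl fun j _ => by ring
  rw [h3, Nat.even_add] at h2
  exact h2.1 hev'

/-- the hyperelementary case, from an odd cyclic extension -/
theorem parity_res {d : ℕ} {F L : Type} [Field F] [NumberField F] [Field L] [NumberField L]
    [Algebra F L] [IsGalois F L] (hH : TwoHyperelementary Gal(L/F))
    (E : Fin d → WeierstrassCurve F) (hE : ∀ j, (E j).IsElliptic) (hs : ∀ j, Semistable (E j))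
    (hp : ∀ F' : IntermediateField F L, TwoHyperelementary Gal(L/F') → TwoGenerated Gal(L/F') →
      Parity (fun j => (E j).map (algebraMap F F'))) : Parity E := by
  let N := res Gal(L/F)
  let F' := IntermediateField.fixedField N
  have e1 : N ≃* Gal(L/F') := IntermediateField.subgroupEquivAlgEquiv N
  have h1 : TwoHyperelementary Gal(L/F') := hyper_congr e1 (hyper_sub N hH)
  have h2 : TwoGenerated Gal(L/F') := gen_congr e1 (res_gen _)
  have e2 : Gal(L/F) ⧸ N ≃* Gal(F'/F) := IsGalois.normalAutEquivQuotient N
  obtain ⟨h3, h4⟩ := res_quot hH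
  have h5 : IsCyclic Gal(F'/F) := isCyclic_of_surjective e2.toMonoidHom e2.surjective
  have h6 : Odd (Nat.card Gal(F'/F)) := by
    rw [← Nat.card_congr e2.toEquiv]
    exact h4
  exact parity_odd h5 h6 E hE hs (hp F' h1 h2)

/-- induction from the 2-hyperelementary extensions -/
theorem parity_hyper {d : ℕ} {K L : Type} [Field K] [NumberField K] [Field L] [NumberField L] [Algebra K L]
    [IsGalois K L] (E : Fin d → WeierstrassCurve K) (hE : ∀ j, (E j).IsElliptic) (hs : ∀ j, Semistable (E j))
    (hF : ∀ F : IntermediateField K L, TwoHyperelementary Gal(L/F) →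
      Parity (fun j => (E j).map (algebraMap K F))) : Parity E := by
  classical
  obtain ⟨m, S, n, hm0, hmP, hS, hsum⟩ := gal_unit
    {F : IntermediateField K L | IsHyper 2 F.fixingSubgroup}
    (by
      intro F hF F' _
      have hle : (F ⊔ F').fixingSubgroup ≤ F.fixingSubgroup := by
        rw [IntermediateField.fixingSubgroup_sup]
        exact inf_le_left
      have hF' : IsHyper 2 F.fixingSubgroup := hF
      exact hF'.le hle)
    (by
      intro F hF σ
      have e : (F.map (σ : L →ₐ[K] L)).fixingSubgroup =
          F.fixingSubgroup.map (MulAut.conj σ).toMonoidHom := IsGalois.map_fixingSubgroup F σ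
      rw [Set.mem_ofPred_eq, e]
      have hF' : IsHyper 2 F.fixingSubgroup := hF
      exact hF'.conj σ) {2}
    (by
      intro g
      obtain ⟨H, hH, h⟩ := hyper_count Nat.prime_two g
      have e : (IntermediateField.fixedField H).fixingSubgroup = H :=
        IntermediateField.fixingSubgroup_fixedField _
      refine ⟨IntermediateField.fixedField H, ?_, ?_⟩
      · rw [Set.mem_ofPred_eq, e]
        exact hH
      · have h1 := fx_eq_emb (IntermediateField.fixedField H) g
        rw [e] at h1
        intro h2
        rw [h1, h2] at h
        exact h (dvd_zero _))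
    (by
      intro g p hp hpp
      obtain rfl : p = 2 := hp
      obtain ⟨H, hH, h⟩ := hyper_count Nat.prime_two g
      have e : (IntermediateField.fixedField H).fixingSubgroup = H :=
        IntermediateField.fixingSubgroup_fixedField _
      refine ⟨IntermediateField.fixedField H, ?_, ?_⟩
      · rw [Set.mem_ofPred_eq, e]
        exact hH
      · have h1 := fx_eq_emb (IntermediateField.fixedField H) g
        rw [e] at h1
        rw [h1] at h
        exact_mod_cast h)
  have hodd : Odd m := by
    rw [← Nat.not_even_iff_odd, even_iff_two_dvd]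
    exact hmP 2 rfl Nat.prime_two
  have hrel : ∀ g : Gal(L/K), ∑ i : S, n i.1 * fx (i.1.val).fieldRange.fixingSubgroup g = m := by
    intro g
    rw [← hsum g, ← Finset.sum_coe_sort S (fun F => n F * fx F.fixingSubgroup g)]
    refine Finset.sum_congr rfl fun i _ => ?_
    rw [IntermediateField.fieldRange_val]
  have hne : Nonempty S := by
    by_contra h
    rw [not_nonempty_iff] at h
    have h1 := hrel 1
    rw [Finset.univ_eq_empty, Finset.sum_empty] at h1
    exact hm0 (by exact_mod_cast h1.symm)
  exact parity_rel (fun i : S => (⟨i.1⟩ : Ext K)) (fun i => i.1.val) (fun i => n i.1) m hodd hrel E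
    hE hs fun i => hF i.1 (hyper_of i.1 (hS i.1 i.2))

end Aux

/-- **Induction for the parity conjecture.** Let `A` be the product of the semistable elliptic curves
`E 0, ..., E (d - 1)` over a number field `K` and `L / K` a finite Galois extension. The parity
conjecture holds for `A` over all intermediate fields of `L / K` (`K` included) if and only if it
holds for `A` over the intermediate fields `F` for which `Gal(L/F)` is 2-hyperelementary and generated
by its elements of 2-power order. -/
theorem result (d : ℕ) (K L : Type) [Field K] [NumberField K] [Field L] [NumberField L]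
    [Algebra K L] [IsGalois K L] (E : Fin d → WeierstrassCurve K) (hE : ∀ j, (E j).IsElliptic)
    (hs : ∀ j, Semistable (E j)) :
    (Parity E ∧ ∀ M : IntermediateField K L, Parity (fun j => (E j).map (algebraMap K M))) ↔
      ∀ F : IntermediateField K L, TwoHyperelementary Gal(L/F) → TwoGenerated Gal(L/F) →
        Parity (fun j => (E j).map (algebraMap K F)) := by
  refine ⟨fun h F _ _ => h.2 F, fun h => ?_⟩
  have key : ∀ M : IntermediateField K L, Parity (fun j => (E j).map (algebraMap K M)) := by
    intro M
    refine parity_hyper (L := L) _ (fun j => inferInstance) (fun j => Pool.Agent.Results.MP_02f36d_nt.SemistableInduction.semi_map (hs j)) fun F hF => ?_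
    refine parity_res (L := L) hF _ (fun j => inferInstance)
      (fun j => Pool.Agent.Results.MP_02f36d_nt.SemistableInduction.semi_map (Pool.Agent.Results.MP_02f36d_nt.SemistableInduction.semi_map (hs j))) fun F' h1 h2 => ?_
    have h3 := h ((F'.restrictScalars M).restrictScalars K) h1 h2
    simp only [WeierstrassCurve.map_map]
    exact h3
  refine ⟨?_, key⟩
  refine parity_hyper (L := L) _ hE hs fun F hF => ?_
  exact key F

end Pool.Agent.Results.MP_ac3185_nt.SemistableProducts
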