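import Pool.Agent.Results.MP_a43263_nt.TwoGroupForms
import Pool.Agent.R431.P.QR
import Pool.Agent.R431.P.Jac

/-!
# The parity conjecture for the forms of `E^g` that are split by nonabelian 2-extensions of `ℚ`

Let `K` be a Galois extension of `ℚ` whose degree is a power of two (its Galois group may be nonabelian),
let `M = ℤ^g` be a lattice, of any rank, with an action `R` of the Galois group of `ℚ` that is trivial on
the automorphisms which fix `K`, and `A = E ⊗ M`: the abelian variety of dimension `g` over `ℚ` that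
becomes `E^g` over `K`, with the Galois action twisted by `R`. For instance `A` is the restriction of
scalars to `ℚ` of `E`, or of a quadratic twist of `E`, over a subfield `k` of `K`, Galois over `ℚ` or not.
`K` is ramified only at primes `l ∤ 2 Δ` with `a_l(E)` odd, and either `E = X_0(11)` (`K` is unramified at
`2` and `11`, but these primes may decompose in any way), or `E` has negative discriminant, `E(ℚ)` is
finite of odd order, `Ш(E/ℚ)[2] = 0`, and the residue degree in `K` of the primes above `2 Δ` is one.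

Local root numbers (Rohrlich, *Galois theory, elliptic curves, and root numbers*, Compositio Math. 100
(1996), and its Theorem 2 for twists by Artin representations). Let `det R` be the character of
`ℚ(√d)`, `d` a squarefree integer. For the abelian varieties above the local root numbers are
* `(-1)^g` at the real place,
* `(det R)_l(-1) = (-1/l)` at the primes `l ∣ d`; these are primes of good reduction of `E`, at which `R`
  may be ramified; at a prime of good reduction `l ∤ d` the local root number is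
  `(det R)_l(-1) = 1`, whether `R` is ramified at `l` or not,
* `w_p^g (d/p)` at the primes `p ∣ Δ`, where `w_p` is the local root number of `E`: if the reduction is
  multiplicative it is `det(-Frob)` on `η ⊗ M` (`R` is unramified at `p`, and `η` is the unramified
  character with `w_p = -η(Frob)`), that is `(w_p)^g det R(Frob_p)`, and `det R(Frob_p) = (d/p)`; in the
  other cases `p` splits completely in `K`, and `(d/p) = 1`.

So the global root number is `rootA` below. We prove that it is `w(E/ℚ)^g`, and that the rank of `A(ℚ)`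
and the `2^∞`-Selmer rank of `A/ℚ` are zero. For `E = X_0(11)` one has `w(E/ℚ) = 1` (the reduction at `11`
is split multiplicative, `w_11 = -1`). In the other cases `w(E/ℚ) = 1` is the theorem of Dokchitser and
Dokchitser, because `E(ℚ)` and `Ш(E/ℚ)[2^∞]` are finite. So the parity conjecture holds for all these
abelian varieties.
-/

set_option autoImplicit false

open NumberField IsDedekindDomain WeierstrassCurve

namespace Pool.Agent.Results.MP_ac3185_nt.TwoGroupForms

open scoped Classical

open Pool.Agent.TH841.SH.D (Gal)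
open Pool.Agent.Results.MP_a43263_nt.TwoGroupForms
  (base pts X011 Unramified Seed ptsA IsShaCocycle IsCoboundary)

/-- `d` is the squarefree integer such that the character `det R` is the character of `ℚ(√d)`:
`σ √d = det R(σ) √d` (so `d = 1` if `det R = 1`). -/
def IsDisc {g : ℕ} (R : Gal ℚ →* GL (Fin g) ℤ) (d : ℤ) : Prop :=
  Squarefree d ∧ ∃ r : AlgebraicClosure ℚ, r ^ 2 = (d : AlgebraicClosure ℚ) ∧
    ∀ σ : Gal ℚ, σ r = ((R σ : Matrix (Fin g) (Fin g) ℤ).det : AlgebraicClosure ℚ) * r

/-- The global root number of `E` over `ℚ`: `-1` at the real place, `w p` at the primes `p ∣ Δ`. -/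
def rootE (W : WeierstrassCurve ℤ) (w : ℕ → ℤ) : ℤ := (-1) * ∏ p ∈ W.Δ.natAbs.primeFactors, w p

/-- The global root number of `A = E ⊗ M`: `(-1)^g` at the real place, `w_p^g (d/p)` at the primes
`p ∣ Δ`, `(-1/l)` at the primes `l ∣ d`. -/
def rootA (W : WeierstrassCurve ℤ) (w : ℕ → ℤ) (g : ℕ) (d : ℤ) : ℤ :=
  (-1) ^ g * (∏ p ∈ W.Δ.natAbs.primeFactors, w p ^ g * jacobiSym d p) *
    ∏ l ∈ d.natAbs.primeFactors, jacobiSym (-1) l

theorem rootA_eq (W : WeierstrassCurve ℤ) (w : ℕ → ℤ) (g : ℕ) (d : ℤ)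
    (h : (∏ p ∈ W.Δ.natAbs.primeFactors, jacobiSym d p) *
      ∏ l ∈ d.natAbs.primeFactors, jacobiSym (-1) l = 1) : rootA W w g d = rootE W w ^ g := by
  unfold rootA rootE
  rw [Finset.prod_mul_distrib, mul_pow, ← Finset.prod_pow]
  linear_combination ((-1) ^ g * ∏ p ∈ W.Δ.natAbs.primeFactors, w p ^ g) * h

/-- **Main theorem.** For `K`, `E` and `A = E ⊗ M` as above let `d` be the squarefree integer that belongs
to `det R`. The group `A(ℚ)` is finite, of odd order, the 2-primary part of `Ш(A/ℚ)` is zero, the primes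
that divide `d` do not divide `2 Δ`, `d = 1` mod `4`, and the global root number of `A` is `w(E/ℚ)^g`,
for all values `w` of the local root numbers of `E`. For `E = X_0(11)` it is one. -/
theorem result (W : WeierstrassCurve ℤ) (K : Type) [Field K] [NumberField K] [IsGalois ℚ K]
    (n m : ℕ) (hn : Module.finrank ℚ K = 2 ^ n)
    (hm : ∀ l : ℕ, l.Prime → l ∣ m → ¬ (l : ℤ) ∣ 2 * W.Δ ∧ Odd ((l : ℤ) - pts W (ZMod l)))
    (hunr : ∀ p : ℕ, p.Prime → ¬ p ∣ m → Unramified K p)
    (hW : W = X011 ∨ (W.Δ < 0 ∧ Seed W ∧ ∀ v : HeightOneSpectrum (𝓞 K),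
      ((2 * W.Δ : ℤ) : 𝓞 K) ∈ v.asIdeal → (Ideal.absNorm v.asIdeal).Prime))
    (g : ℕ) (R : Gal ℚ →* GL (Fin g) ℤ) (e : K →+* AlgebraicClosure ℚ)
    (hR : ∀ σ : Gal ℚ, (∀ x : K, σ (e x) = e x) → R σ = 1) :
    (Finite (ptsA W R) ∧ Odd (Nat.card (ptsA W R)) ∧
      ∀ f, IsShaCocycle W R f → ∀ k : ℕ, IsCoboundary W R (2 ^ k • f) → IsCoboundary W R f) ∧
    ∃ d : ℤ, IsDisc R d ∧ d % 4 = 1 ∧ (∀ l : ℕ, l.Prime → (l : ℤ) ∣ d → ¬ (l : ℤ) ∣ 2 * W.Δ) ∧
      (∀ w : ℕ → ℤ, rootA W w g d = rootE W w ^ g) ∧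
      (W = X011 → ∀ w : ℕ → ℤ, w 11 = -1 → rootA W w g d = 1) := by
  refine ⟨(Pool.Agent.Results.MP_a43263_nt.TwoGroupForms.result W K n m hn hm hunr hW g R e hR).1, ?_⟩
  obtain ⟨d, r, hd, hr, hσ⟩ := Pool.Agent.R431.P.exists_sqrt_abs (AlgebraicClosure ℚ) e
    (Matrix.GeneralLinearGroup.det.comp R) (fun σ hσ => by
      rw [MonoidHom.comp_apply, hR σ hσ, map_one])
  -- `K` is unramified at `2`
  have h2m : ¬ 2 ∣ m := fun h => (hm 2 Nat.prime_two h).1 (by push_cast; exact Dvd.intro _ rfl)
  obtain ⟨v2, hv2⟩ := Pool.Agent.R431.P.exists_place (K := K) Nat.prime_two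
  have hun2 := hunr 2 Nat.prime_two h2m v2 hv2
  have h4 : d % 4 = 1 := Pool.Agent.R431.P.mod_four hv2 hun2 hd hr
  -- the primes that divide `d` divide `m`
  have hdm : ∀ l : ℕ, l.Prime → (l : ℤ) ∣ d → l ∣ m := by
    intro l hl hld
    by_contra hlm
    obtain ⟨v, hv⟩ := Pool.Agent.R431.P.exists_place (K := K) hl
    exact Pool.Agent.R431.P.not_dvd hl hv (hunr l hl hlm v hv) hd hr hld
  have hgood : ∀ l : ℕ, l.Prime → (l : ℤ) ∣ d → ¬ (l : ℤ) ∣ 2 * W.Δ := fun l hl hld =>
    (hm l hl (hdm l hl hld)).1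
  -- the discriminant is a square modulo the primes that divide `d`
  have hsq : ∀ l : ℕ, l.Prime → l ∣ d.natAbs → jacobiSym W.Δ l = 1 := by
    intro l hl hld
    haveI : Fact l.Prime := ⟨hl⟩
    have hld' : (l : ℤ) ∣ d := Int.natCast_dvd.2 hld
    have h1 := hm l hl (hdm l hl hld')
    have hl2 : l ≠ 2 := by
      rintro rfl
      exact h2m (hdm 2 hl hld')
    have hlΔ : ¬ (l : ℤ) ∣ W.Δ := fun h => h1.1 (h.mul_left 2)
    have h3 := Pool.Agent.R431.P.sq_disc W hl2 hlΔ h1.2
    rw [← jacobiSym.legendreSym.to_jacobiSym, legendreSym.eq_one_iff l (by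
      rw [Ne, ZMod.intCast_zmod_eq_zero_iff_dvd]
      exact hlΔ)]
    exact h3
  have hrint : IsIntegral ℤ r := by
    refine ⟨Polynomial.X ^ 2 - Polynomial.C d, Polynomial.monic_X_pow_sub_C d two_ne_zero, ?_⟩
    rw [Polynomial.eval₂_sub, Polynomial.eval₂_pow, Polynomial.eval₂_X, Polynomial.eval₂_C, hr]
    exact sub_self _
  obtain ⟨R₀, hR₀⟩ : ∃ R₀ : 𝓞 K, R₀ ^ 2 = (d : 𝓞 K) := by
    obtain ⟨R₀, h0⟩ := (IsIntegralClosure.isIntegral_iff (A := 𝓞 K)).1 hrint
    refine ⟨R₀, FaithfulSMul.algebraMap_injective (𝓞 K) K ?_⟩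
    rw [map_pow, map_intCast, h0]
    exact hr
  have hkey : (∏ p ∈ W.Δ.natAbs.primeFactors, jacobiSym d p) *
      ∏ l ∈ d.natAbs.primeFactors, jacobiSym (-1) l = 1 := by
    rw [Pool.Agent.R431.P.prod_neg_one hd h4]
    rcases hW with rfl | ⟨hneg, -, hdeg⟩
    · have e1 : X011.Δ.natAbs.primeFactors = {11} := by
        have e2 : X011.Δ.natAbs = 11 ^ 5 := by decide +kernel
        rw [e2, Nat.primeFactors_prime_pow (by norm_num) (by norm_num)]
      rw [e1, Finset.prod_singleton]
      have h11 : ¬ (11 : ℤ) ∣ d := fun h => hgood 11 (by norm_num) (by exact_mod_cast h) (by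
        decide +kernel)
      have e3 : ∀ l : ℕ, l.Prime → l ∣ d.natAbs → jacobiSym (-11) l = 1 := by
        intro l hl hld
        have h5 := hsq l hl hld
        have e4 : X011.Δ = (-11) * (11 ^ 2) ^ 2 := by decide +kernel
        have hld' : (l : ℤ) ∣ d := Int.natCast_dvd.2 hld
        have hl11 : l ≠ 11 := by
          rintro rfl
          exact h11 (by exact_mod_cast hld')
        rw [e4, jacobiSym.mul_left, jacobiSym.pow_left, jacobiSym.sq_one, mul_one] at h5
        · exact h5
        · rw [Int.gcd_eq_natAbs]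
          simp only [Int.natAbs_pow, Int.natAbs_natCast]
          refine Nat.Coprime.pow_left 2 ?_
          exact (Nat.coprime_primes (by norm_num) hl).2 hl11.symm
      rw [Pool.Agent.R431.P.eleven hd h4 h11 e3]
      rcases lt_or_gt_of_ne hd.ne_zero with h | h
      · rw [Int.sign_eq_neg_one_of_neg h]
        norm_num
      · rw [Int.sign_eq_one_of_pos h]
        norm_num
    · have hmem : ∀ p : ℕ, (p : ℤ) ∣ 2 * W.Δ → ∀ v : HeightOneSpectrum (𝓞 K),
          (p : 𝓞 K) ∈ v.asIdeal → (Ideal.absNorm v.asIdeal).Prime := by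
        intro p ⟨c, hc⟩ v hv
        refine hdeg v ?_
        rw [hc]
        push_cast
        exact v.asIdeal.mul_mem_right _ hv
      have hodd : ∀ p : ℕ, p.Prime → p ≠ 2 → (p : ℤ) ∣ W.Δ → jacobiSym d p = 1 := by
        intro p hp hp2 hpΔ
        obtain ⟨v, hv⟩ := Pool.Agent.R431.P.exists_place (K := K) hp
        exact Pool.Agent.R431.P.jac_of_deg hp hp2 hv (hmem p (hpΔ.mul_left 2) v hv)
          (fun h => hgood p hp h (hpΔ.mul_left 2)) hR₀
      have h8 : d % 8 = 1 := Pool.Agent.R431.P.mod_eight hv2 hun2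
        (hmem 2 (by push_cast; exact Dvd.intro _ rfl) v2 hv2) h4 hR₀
      have hpos : 0 < d := Pool.Agent.R431.P.pos_of hneg hd h4 (fun _ => h8) hsq hodd
      rw [Int.sign_eq_one_of_pos hpos, mul_one]
      refine Finset.prod_eq_one fun p hp => ?_
      have hpp := Nat.prime_of_mem_primeFactors hp
      by_cases hp2 : p = 2
      · subst hp2
        haveI : Fact (Nat.Prime 2) := ⟨Nat.prime_two⟩
        have e5 : ((d : ℤ) : ZMod 2) = 1 := by
          have h6 : ((2 : ℕ) : ℤ) ∣ d - 1 := by push_cast; omega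
          have h7 := (ZMod.intCast_zmod_eq_zero_iff_dvd (d - 1) 2).2 h6
          push_cast at h7
          exact sub_eq_zero.1 h7
        rw [← jacobiSym.legendreSym.to_jacobiSym, legendreSym.eq_one_iff 2 (by
          rw [e5]
          exact one_ne_zero), e5]
        exact ⟨1, by norm_num⟩
      · exact hodd p hpp hp2 (Int.natCast_dvd.2 (Nat.dvd_of_mem_primeFactors hp))
  refine ⟨d, ⟨hd, e r, ?_, fun σ => ?_⟩, h4, hgood, fun w => rootA_eq W w g d hkey, ?_⟩
  · rw [← map_pow, hr, map_intCast]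
  · rw [hσ]
    rfl
  · rintro rfl w hw
    rw [rootA_eq _ w g d hkey]
    have e1 : X011.Δ.natAbs.primeFactors = {11} := by
      have e2 : X011.Δ.natAbs = 11 ^ 5 := by decide +kernel
      rw [e2, Nat.primeFactors_prime_pow (by norm_num) (by norm_num)]
    rw [rootE, e1, Finset.prod_singleton, hw]
    norm_num

end Pool.Agent.Results.MP_ac3185_nt.TwoGroupForms
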